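import Pool.Agent.U598.GT.Fin
import Pool.Agent.Y184.NT.Top

/-!
# Kodaira dimension and total scalar curvature: correspondences with complete intersections

The question compares two properties of a compact manifold `W`: `κ(W) = -∞`, and the existence of a
Gauduchon metric with positive total scalar curvature, that is, `K_W` is not pseudo-effective. Here both
properties of a smooth projective variety `W` of dimension `n` are shown to imply the same
lower bound for the degrees of all correspondences between `W` and complete intersections.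

Let `V ⊂ ℙ^{n + c}` be a smooth complete intersection of dimension `n` of hypersurfaces of degrees
`δ_1, …, δ_c` over `ℂ`, with `δ_1 + ⋯ + δ_c ≥ n + c + 1`; or any `n`-dimensional irreducible component of
an intersection of hypersurfaces of degrees `δ_1, …, δ_c` in `ℙ^{n + c}` such that `K_V - m H` is
effective on a resolution, where `H` is the hyperplane class and `δ_1 + ⋯ + δ_c ≤ m + n + c + 1`,
`m ≥ 0`. Let `Z` be a variety with dominant rational maps of finite degree to `V` and to `W`; let `r` be
the degree of `Z` over `W`.

**Theorem.** Put `p = n + c`. If `κ(W) = -∞`, or `K_W` is not pseudo-effective (so if `W` carries a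
Gauduchon metric with positive total scalar curvature), or `W` is uniruled, or only the canonical map of
`W` is not generically finite onto its image (for instance `p_g(W) ≤ n`), then
`δ_1 ⋯ δ_c ≤ r (4 p) ^ (p (p + 3) / 2)`. So if `δ_1 ⋯ δ_c` is larger, then `κ(W) = n`, and there is no
Gauduchon metric with positive total scalar curvature on `W`: the answer to the question is
affirmative for all smooth projective varieties with correspondences of such small degrees.

The theorem on the canonical map is `MP_e06174_ag.MultiplicativeBound` (helper598), see there for the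
proof; the library is `Pool/Agent/U598`.

The function-field language of the starting repository is used: a canonical form (`IsPluri 1`) on a
variety of dimension `n` is a function of `n` rational vector fields; it is regular at the prime
divisor `P` (`Place`, `Divisorial`, `RegAt`) if its value on vector fields which are regular at `P`
is regular at `P`. `KodGe ℂ L n (fun _ => False) h` says that `κ(W) ≥ h`, `Psef ℂ L n (fun _ => False)`
that `K_W` is pseudo-effective (`Pool/Agent/W602/GT`), `IsUniruled ℂ L n` that `W` is uniruled
(`Pool/Agent/W619/PQ/Defs.lean`).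
-/

set_option autoImplicit false
set_option linter.overlappingInstances false

open FF MvPolynomial Pool.Agent.W602.GT
open Pool.Agent.W619.PQ (IsUniruled)

namespace Pool.Agent.Results.MP_23b606_ag.CorrespondenceDegrees

section

variable {M : Type} [Field M] [Algebra ℂ M] {N : ℕ}

/-- `x` is the generic point of a projective variety `V` in `ℙ^{N-1}` of dimension `n` with the
function field `M`; the homogeneous coordinates are normalised by `x j0 = 1`. -/
structure IsGenericPoint (n : ℕ) (x : Fin N → M) (j0 : Fin N) : Prop where
  one : x j0 = 1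
  gen : IntermediateField.adjoin ℂ (Set.range x) = ⊤
  dim : Algebra.trdeg ℂ M = n

/-- The divisor of the canonical form `ω` contains `m` times the hyperplane class: `ω` is not zero,
and the product of `ω` with each monomial of degree `m` in the coordinates is regular at all prime
divisors of all models of `V`. -/
structure IsSubcanonical {n : ℕ} (m : ℕ) (x : Fin N → M) (ω : (Fin n → Derivation ℂ M M) → M) :
    Prop where
  form : IsPluri 1 ω
  ne : ∃ D, ω D ≠ 0
  reg : ∀ (f : Fin m → Fin N) (P : Place ℂ M), Divisorial n P →
    RegAt P (fun D : Fin n → Derivation ℂ M M => (∏ k, x (f k)) * ω D)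

/-- `V` is an irreducible component of the intersection of the hypersurfaces `F i = 0` of degrees
at most `δ i` (in the affine space of the points with the `j0`-th coordinate `1`). -/
structure IsComponent {c : ℕ} (δ : Fin c → ℕ) (F : Fin c → MvPolynomial (Fin N) ℂ) (x : Fin N → M)
    (j0 : Fin N) : Prop where
  deg : ∀ i, (F i).totalDegree ≤ δ i
  comp : RingHom.ker (aeval x : MvPolynomial (Fin N) ℂ →ₐ[ℂ] M) ∈
    (Ideal.span (insert (X j0 - 1) (Set.range F))).minimalPrimes

end

/-- The canonical map is generically finite onto its image: there are `n + 1` canonical forms which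
are regular at all prime divisors such that their ratios are algebraically independent. -/
def CanonicalMapFinite (L : Type) [Field L] [Algebra ℂ L] (n : ℕ) : Prop :=
  ∃ θ : Fin (n + 1) → (Fin n → Derivation ℂ L L) → L,
    (∀ j, IsPluri 1 (θ j) ∧ ∀ P : Place ℂ L, Divisorial n P → RegAt P (θ j)) ∧
    ∃ D, θ 0 D ≠ 0 ∧ AlgebraicIndependent ℂ (fun i : Fin n => θ i.succ D / θ 0 D)

/-- **Correspondences with complete intersections.** Let `M`, `L` and `K` be the function fields of
`V`, `W` and `Z`. -/
theorem main {n c m : ℕ} {M : Type} [Field M] [Algebra ℂ M] {x : Fin (n + c + 1) → M}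
    {j0 : Fin (n + c + 1)} (hx : IsGenericPoint n x j0) {ω : (Fin n → Derivation ℂ M M) → M}
    (hω : IsSubcanonical m x ω) {δ : Fin c → ℕ} {F : Fin c → MvPolynomial (Fin (n + c + 1)) ℂ}
    (hF : IsComponent δ F x j0) (hδ : ∑ i, δ i ≤ m + n + c + 1)
    {L K : Type} [Field L] [Algebra ℂ L] [Field K] [Algebra ℂ K]
    [Algebra M K] [IsScalarTower ℂ M K] [FiniteDimensional M K] [Algebra L K]
    [IsScalarTower ℂ L K] [FiniteDimensional L K]
    (hr : Module.finrank L K * (4 * (n + c)) ^ ((n + c) * (n + c + 3) / 2) < ∏ i, δ i) :
    CanonicalMapFinite L n ∧ KodGe ℂ L n (fun _ => False) n ∧ Psef ℂ L n (fun _ => False) ∧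
      ¬ IsUniruled ℂ L n := by
  classical
  have hessM : Algebra.EssFiniteType ℂ M := by
    rw [← IntermediateField.fg_top_iff]
    exact ⟨Finset.univ.image x, by
      rw [Finset.coe_image, Finset.coe_univ, Set.image_univ, hx.gen]⟩
  have hessMK : Algebra.EssFiniteType M K := inferInstance
  have hessK : Algebra.EssFiniteType ℂ K := Algebra.EssFiniteType.comp ℂ M K
  have hessL : Algebra.EssFiniteType ℂ L := Pool.Agent.TH466.QG.ess_below (K := K)
  have hKtr : Algebra.trdeg ℂ K = n := Pool.Agent.Y172.trdeg_up (K := M) hx.dim
  have hL : Algebra.trdeg ℂ L = n := Pool.Agent.Y184.NT.trdeg_below (K := K) hKtr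
  obtain ⟨K', _, _, _, _, _, _, _, _, hle, hK⟩ := Pool.Agent.U598.MD.exists_sub (M := M) (L := L)
    (K := K) hx.gen
  have hc : 1 ≤ c := by
    by_contra h0
    have h1 : c = 0 := by omega
    subst h1
    rw [Fin.prod_univ_zero, Nat.lt_one_iff, mul_eq_zero] at hr
    have h3 : 0 < Module.finrank L K := Module.finrank_pos
    rcases hr with hr | hr
    · omega
    · rw [pow_eq_zero_iff'] at hr
      obtain ⟨h4, h5⟩ := hr
      have h6 : n = 0 := by omega
      subst h6
      simp at h5
  have hcan : CanonicalMapFinite L n := by
    refine Pool.Agent.U598.GT.canonical_finite (V := M) (L := L) (K := K') (m := m)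
      (Nat.le_add_left_of_le hc) hx.dim hω.form hω.ne hx.one hω.reg hx.gen hK hδ hF.deg hF.comp ?_
    have h2 := Pool.Agent.U598.MD.const_le2 (n := n) hc (Module.finrank L K')
    have h3 := Nat.mul_le_mul_right ((4 * (n + c)) ^ ((n + c) * (n + c + 3) / 2)) hle
    omega
  obtain ⟨θ, hθ, D, hD, hind⟩ := hcan
  have hsec : ∀ j, LogSec ℂ L n 1 (fun _ => False) (θ j) := fun j =>
    ⟨(hθ j).1, fun P hP D' hD' => (hθ j).2 P hP D' fun i =>
      Pool.Agent.TH466.QG.derReg_of_log (hD' i), fun P hP _ => (hθ j).2 P hP⟩
  have hkod : KodGe ℂ L n (fun _ => False) 0 :=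
    ⟨1, one_pos, fun _ => θ 0, fun _ => hsec 0, D, hD, algebraicIndependent_empty_type⟩
  have hpsef : Psef ℂ L n (fun _ => False) := psef_of_kodGe hkod
  exact ⟨⟨θ, hθ, D, hD, hind⟩, ⟨1, one_pos, θ, hsec, D, hD, hind⟩, hpsef, fun h =>
    (Pool.Agent.W619.Y.uniruled_neg n hL h).1 ((Pool.Agent.TH466.QG.psef_iff n).1 hpsef)⟩

/-- **Lower bound for the degrees of correspondences.** Let `M`, `L` and `K` be the function fields of
`V`, `W` and `Z`. -/
theorem result {n c m : ℕ} {M : Type} [Field M] [Algebra ℂ M] {x : Fin (n + c + 1) → M}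
    {j0 : Fin (n + c + 1)} (hx : IsGenericPoint n x j0) {ω : (Fin n → Derivation ℂ M M) → M}
    (hω : IsSubcanonical m x ω) {δ : Fin c → ℕ} {F : Fin c → MvPolynomial (Fin (n + c + 1)) ℂ}
    (hF : IsComponent δ F x j0) (hδ : ∑ i, δ i ≤ m + n + c + 1)
    {L K : Type} [Field L] [Algebra ℂ L] [Field K] [Algebra ℂ K]
    [Algebra M K] [IsScalarTower ℂ M K] [FiniteDimensional M K] [Algebra L K]
    [IsScalarTower ℂ L K] [FiniteDimensional L K]
    (hW : ¬ KodGe ℂ L n (fun _ => False) 0 ∨ ¬ Psef ℂ L n (fun _ => False) ∨ IsUniruled ℂ L n ∨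
      ¬ CanonicalMapFinite L n) :
    ∏ i, δ i ≤ Module.finrank L K * (4 * (n + c)) ^ ((n + c) * (n + c + 3) / 2) := by
  by_contra hcon
  obtain ⟨h1, h2, h3, h4⟩ := main hx hω hF hδ (L := L) (K := K) (not_le.1 hcon)
  obtain ⟨e, he, θ, hθ, D, hD, hind⟩ := h2
  rcases hW with h | h | h | h
  · exact h ⟨e, he, fun _ => θ 0, fun _ => hθ 0, D, hD, algebraicIndependent_empty_type⟩
  · exact h h3
  · exact h4 h
  · exact h h1

end Pool.Agent.Results.MP_23b606_ag.CorrespondenceDegrees
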