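import Pool.Agent.U976.TBd.GC3

/-!
# Kummer covers of toric bundles over torus quotients: classes of Gauduchon metrics

Let `X = V / Γ` be the quotient of a complex torus of any dimension by any finite group; the torus need
not be algebraic, and the group may contain reflections. Let `Y → X` be a toric bundle: all fibres are
the same smooth complete toric variety, of any dimension, and the twists `c i` are arbitrary line
bundles on `X`. Let `F_j` be a section of the `m_j`-th power of the line bundle `O_Y(e_j; A_j)` on `Y`,
and let `π : Y' → Y` be the Kummer cover of `Y` with the equations `y_j ^ m_j = F_j`. We assume that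
`Y'` is smooth, or only that its general fibre over `X` is smooth. So the theorem holds for all compact
complex manifolds `Y'` of this form; they are in class `C` (Kähler if the fan is projective), of any
dimension and any algebraic dimension.

The real classes of type `(1, 1)` on `Y` (that come from line bundles) are given by `(D, H)`: the
divisor `∑ D_i {x_i = 0}` on the fibres, modulo the divisors of characters, and the Chern form `H` of
the line bundle `L` on `X`. We consider the linear forms
`deg (D, H) = ∑ H(w_s, w_s) + ∑ a_i D_i` on the space of these classes, `∑ a_i u_i = 0`, such that the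
vectors `w_s` span `V` and such that the degrees `a_i + ∑ H_{c_i}(w_s, w_s)` of the invariant divisors
`{x_i = 0}` of `Y` are positive. These are the linear forms which are positive on all pseudo-effective
classes `≠ 0` on `Y`, by Lamari's theorem the classes `[ω ^ (dim Y - 1)]` of Gauduchon metrics `ω`
on `Y` (if `X` is a torus).

The theorem: (1) the pullback of a line bundle `O_Y(D; L)` to `Y'` has a singular hermitian metric with
semipositive curvature current if and only if its degree is nonnegative for all these classes. (2)
`κ (Y') = - ∞` if and only if the degree of `K_{Y'}` is negative for one of these classes. So for `Y'`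
the question has a positive answer: for the pullback to `Y'` of the class, and for its sum with a small
multiple of the class of a Gauduchon metric, which is the class of a Gauduchon metric `ω` on `Y'` by
Lamari's theorem, the total scalar curvature is positive, since it is a negative multiple of
`K_{Y'} · [ω ^ (dim Y' - 1)]`.

The proof. A metric gives a real exponent `β ≥ 0` in the class of `D` such that `H - ∑ β_i H_{c_i}` is
semipositive (`real_of_metric`: the maximum principle on branched covers of discs and the theorem of
Hahn and Banach), and conversely the weight `∏ |x_i| ^ (β_i)` and the constant metrics give a metric. The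
set of the real exponents `β ≥ 0` in the class of `D` is compact, since the fan is complete. If no
exponent makes all the numbers `(H - ∑ β_i H_{c_i})(v, v)` nonnegative, then this is so for finitely
many vectors `v`, and the lemma of Farkas gives the vectors `w_s` and the numbers `a_i`. For `K_{Y'}` a
real exponent gives a rational exponent and a section of a multiple of `K_{Y'}` (`eff_of_real`).

`IsTorusQuotient` and `LineBundle` are defined in `Pool.Agent.W594.SYZ.Defs2`; `IsChernForm` in
`Pool.Agent.W594.SYZ.TQDefs`; `IsRamification` in `Pool.Agent.TH735.AQ.MirDefs`; `IsSmoothFan` and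
`IsSection` in `Pool.Agent.Q47.TB.Defs`; `GenNormalCrossing` in `Pool.Agent.U976.TBd.NC2`;
`IsCoverCanonical`, `canClass` and `IsCoverSection` in `Pool.Agent.U976.TBd.K1`; `CoverEffective` and
`NonzeroOn` in `Pool.Agent.U976.TBd.K3`; `IsLogPsh`, `CoverSet`, `IsCoverMetric` and
`CoverCurrentPsef` in `Pool.Agent.U976.TBd.CUDefs`; `IsGauduchonClass` and `classDegree` in
`Pool.Agent.U976.TBd.GC2`.
-/

set_option autoImplicit false

namespace Pool.Agent.Results.MP_23b606_ag.GauduchonClasses

open Pool.Agent.W594.SYZ2 Pool.Agent.TH735.AQ Q47.TB Pool.Agent.U976.TBd MvPolynomial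

/-- Let `Y` be the toric bundle with the fan `u`, `S` and the twists `c i` over the torus quotient
`X = V / Γ`, let `F j` be a section of the `m j`-th power of `O_Y(e j; A j)`, and let `Y'` be the Kummer
cover `y_j ^ m_j = F_j` of `Y`.

(1) The pullback of `O_Y(D; L)` to `Y'` is pseudo-effective (it has a singular hermitian metric with
semipositive curvature current) if and only if its degree is nonnegative for all Gauduchon classes.
(2) Let the divisors `F j = 0` on the general fibres be smooth with normal crossings, and let
`p K_{Y'}`, `p ≥ 1`, be the pullback of `O_Y(D; L)`, `D = canClass e m p`, where `H` is the Chern form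
of `L`. Then no positive multiple of `K_{Y'}` has a nonzero section if and only if the degree of
`K_{Y'}` is negative for some Gauduchon class. -/
theorem result {V : Type*} [NormedAddCommGroup V] [NormedSpace ℂ V] [FiniteDimensional ℂ V]
    (Γ : Subgroup (V ≃ᵃ[ℂ] V)) (hΓ : IsTorusQuotient Γ) (ρ : V → ℂ) (hρ : IsRamification Γ ρ)
    {ι : Type*} [Fintype ι] {n : ℕ} (u : ι → Fin n → ℤ) (S : Set (Set ι)) (hS : IsSmoothFan u S)
    (c : ι → LineBundle Γ) (Hc : ι → V → V → ℂ) (hc : ∀ i, IsChernForm (c i) (Hc i))
    {k : ℕ} (m : Fin k → ℕ) (hm : ∀ j, 1 ≤ m j) (e : Fin k → ι → ℤ) (A : Fin k → LineBundle Γ)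
    (F : Fin k → V → MvPolynomial ι ℂ)
    (hF : ∀ j, IsSection u c (fun i => m j * e j i) (fun γ v => (A j).e γ v ^ m j) (F j)) :
    (∀ (D : ι → ℤ) (L : LineBundle Γ) (H : V → V → ℂ), IsChernForm L H →
      (CoverCurrentPsef u S c e A m F D L ↔ ∀ (r : ℕ) (w : Fin r → V) (a : ι → ℝ),
        IsGauduchonClass u Hc w a → 0 ≤ classDegree w a D H)) ∧
    (GenNormalCrossing S F → ∀ (p : ℕ) (L : LineBundle Γ), IsCoverCanonical c A m p ρ L →
      ∀ H : V → V → ℂ, IsChernForm L H →
      (¬ CoverEffective u S c e A m F (canClass e m p) L ↔
        ∃ (r : ℕ) (w : Fin r → V) (a : ι → ℝ), IsGauduchonClass u Hc w a ∧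
          classDegree w a (canClass e m p) H < 0)) := by
  refine ⟨fun D L H hH => ⟨fun h r w a ha => degree_nonneg hΓ hS hc hm hF hH h ha, fun h => ?_⟩,
    fun hnc p L hL H hH => ⟨fun h => ?_, ?_⟩⟩
  · by_contra hcon
    obtain ⟨r, w, a, ha, hneg⟩ := exists_neg_class (u := u) (S := S) (D := D) hS
      (fun i => (hc i).1) hH.1 (fun ⟨q, hq1, hq2⟩ => hcon (metric_of_real hS hc hm hH hq1 hq2))
    exact absurd (h r w a ha) (not_le.2 hneg)
  · exact exists_neg_class (u := u) (S := S) hS (fun i => (hc i).1) hH.1
      fun ⟨q, hq1, hq2⟩ => h (kummer_eff_of_real hΓ hρ hS hc hm hF hnc hL hH hq1 hq2)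
  · rintro ⟨r, w, a, ha, hneg⟩ heff
    exact absurd (degree_nonneg hΓ hS hc hm hF hH (metric_of_section hS heff) ha)
      (not_le.2 hneg)

end Pool.Agent.Results.MP_23b606_ag.GauduchonClasses
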