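import Pool.Agent.U598.PS.Sep
import Pool.Agent.U598.PS.Cyc
import Pool.Agent.N162.GP.Facts2
import Pool.Agent.U393.LT.MainL

/-!
# Uniruledness of the varieties dominated by products of complete intersections and any variety

Let `X_0, …, X_{k-1}` be smooth complete intersections in projective spaces `ℙ^{p_i}`, of dimensions
`n_i ≥ 1` and of any multidegrees with `K_{X_i} ≥ 0`. More generally, `X_i` can be any irreducible
component of an intersection of `q_i` hypersurfaces of degrees at most `δ_1, δ_2, …` which has the regular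
canonical forms `P(x) ω₀` for all monomials `P` of degree `m_i`, where `∑ δ_j ≤ m_i + p_i + 1`
(`CutOut`). Let `Y` be an arbitrary variety of positive dimension, `V = X_0 × ⋯ × X_{k-1} × Y`, and let
`V ⇢ W` be a dominant rational map of finite degree such that `V ⇢ W × X_0 × ⋯ × X_{k-1}` is generically
injective. Let `W_i` be the image of `V` in `W × X_0 × ⋯ × X_{i-1}`, and let `d_i` be the degree of
`W_{i+1}` over `W_i`; for `k = 1` it is the degree of `V ⇢ W`.

**Theorem.** Suppose that `C_i d_i < δ_1 δ_2 ⋯` for all `i < k`, where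
`C_i = (2 p_i) ^ {q_i} (4 p_i) ^ (p_i (p_i + 1) / 2)`; for a complete intersection the product is the degree
of `X_i`. Then

* `W` is uniruled if and only if `Y` is uniruled;
* if `κ(Y) = -∞` then `κ(W) = -∞`;
* if `Y` is uniruled or `p_g(Y) > 0` then the following are equivalent: `p_g(W) = 0`; `κ(W) = -∞`; `K_W` is
  not pseudo-effective; `W` is uniruled.

A Moishezon manifold has a Gauduchon metric with positive total scalar curvature if and only if its
canonical bundle is not pseudo-effective, if and only if it is uniruled. So Q1 holds for the manifolds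
birational to `W` if `Y` is uniruled or `p_g(Y) > 0`; and a variety `W` of this type for which Q1 fails
gives the variety `Y` of smaller dimension which is not uniruled and has `p_g(Y) = 0`.

The first ingredient is the theorem `prodvar_log` of helper393 (`Pool/Agent/U393/LT`, handed in for open
varieties as `MP_410da7_ag.OpenProductsTimesVariety`, the projective case is
`MP_23b606_ag.ProductsTimesVariety`): the same statement for varieties `X_i` whose canonical forms
separate `d_i` general points with values in any algebraically closed field. For varieties with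
`K_X = O(m)` one knew this for `d_i ≤ m_i + 1`. The second ingredient is the new theorem that the canonical forms of `X_i` separate
`const(p_i) deg X_i` points (`Pool/Agent/U598/PS/Inx.lean`), which is the best possible order; its proof is
described in `MP_31564d_ag.DegreeOrder`.
-/

set_option autoImplicit false
set_option linter.overlappingInstances false

open FF Module MvPolynomial Pool.Agent
open Pool.Agent.W602.GT (LogSec Psef KodGe IsPluri)
open Pool.Agent.W619.PQ (IsUniruled)
open Pool.Agent.N162.BC (GlobalForm)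
open Pool.Agent.N162.GP (SmoothCI)

namespace Pool.Agent.Results.MP_23b606_ag.ProductsOfIntersections

/-- `K` is the function field of a variety `X` of dimension `n` in projective `(M + 1)`-space, `x` is
its generic point, `x 0 = 1`. The variety is an irreducible component of an intersection of
hypersurfaces of degrees at most `δ i` (in the affine space of the points with `x 0 = 1`), where
`∑ δ i ≤ m + M + 2`, and there is a nonzero rational canonical form `ω₀` on `X` such that `P(x) ω₀` is a
global section of the canonical bundle of the smooth projective models of `X` for all monomials `P` of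
degree `m`. -/
structure CutOut {M q : ℕ} {K : Type} [Field K] [Algebra ℂ K] (n m : ℕ) (δ : Fin q → ℕ)
    (x : Fin (M + 2) → K) : Prop where
  one : x 0 = 1
  gen : IntermediateField.adjoin ℂ (Set.range x) = ⊤
  dim : Algebra.trdeg ℂ K = n
  sum : ∑ i, δ i ≤ m + M + 2
  component : ∃ F : Fin q → MvPolynomial (Fin (M + 2)) ℂ, (∀ i, (F i).totalDegree ≤ δ i) ∧
    RingHom.ker (aeval x : MvPolynomial (Fin (M + 2)) ℂ →ₐ[ℂ] K) ∈
      (Ideal.span (insert (X 0 - 1) (Set.range F))).minimalPrimes
  forms : ∃ ω₀ : (Fin n → Derivation ℂ K K) → K, IsPluri 1 ω₀ ∧ (∃ D, ω₀ D ≠ 0) ∧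
    ∀ f : Fin m → Fin (M + 2), GlobalForm n (fun D => (∏ k, x (f k)) * ω₀ D)

/-- The function field of the image `W_i` of `V` in `W × X_0 × ... × X_{i-1}`: here `V` and `W` are
the function fields, and `F l.castSucc`, `l < k`, is the function field of `X_l`. -/
noncomputable def Img {V : Type} [Field V] [Algebra ℂ V] {k : ℕ}
    (F : Fin (k + 1) → IntermediateField ℂ V) (W : Type) [Field W] [Algebra W V] (i : ℕ) :
    IntermediateField W V :=
  IntermediateField.adjoin W {z | ∃ l : Fin k, l.val < i ∧ z ∈ F l.castSucc}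

/-- The degree `d_i` of `W_{i+1}` over `W_i`. -/
noncomputable def deg {V : Type} [Field V] [Algebra ℂ V] {k : ℕ}
    (F : Fin (k + 1) → IntermediateField ℂ V) (W : Type) [Field W] [Algebra W V] (i : Fin k) : ℕ :=
  finrank (Img F W i) (IntermediateField.adjoin (Img F W i) (F i.castSucc : Set V))

/-- `p_g = 0`: the smooth projective varieties of dimension `n` with the function field `W` have no
nonzero canonical form. -/
def GenusZero (W : Type) [Field W] [Algebra ℂ W] (n : ℕ) : Prop :=
  ∀ ω : (Fin n → Derivation ℂ W W) → W, GlobalForm n ω → ∀ D, ω D = 0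

theorem a1_iff {k : Type} {K : Type} [Field k] [Field K] [Algebra k K] {n : ℕ} :
    Pool.Agent.W619.PL.IsA1Uniruled k K n (fun _ => False) ↔ IsUniruled k K n := by
  constructor
  · rintro ⟨M, i1, i2, φ, h1, h2, -⟩
    exact ⟨M, i1, i2, h1, h2, ⟨φ⟩⟩
  · rintro ⟨M, i1, i2, h1, h2, ⟨φ⟩⟩
    exact ⟨M, i1, i2, φ, h1, h2, fun _ _ _ _ _ _ h => h⟩

theorem sec_iff {K : Type} [Field K] [Algebra ℂ K] {n : ℕ} {ω : (Fin n → Derivation ℂ K K) → K} :
    LogSec ℂ K n 1 (fun _ => False) ω ↔ GlobalForm n ω := by
  constructor
  · rintro ⟨h1, -, h3⟩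
    exact ⟨h1, fun P hP => h3 P hP (fun h => h)⟩
  · rintro ⟨h1, h2⟩
    exact ⟨h1, fun P hP D' hD' => h2 P hP D' fun i => Pool.Agent.TH466.QG.derReg_of_log (hD' i),
      fun P hP _ => h2 P hP⟩

/-- **Varieties dominated by products of complete intersections and any variety.** (1) A smooth
complete intersection of dimension `n ≥ 1` of hypersurfaces of the degrees `δ i` in projective
`(M + 1)`-space satisfies `CutOut` for `m = ∑ δ i - M - 2`. (2) Let `V` be the function field of the
product of the varieties `X_i`, `i < k`, of dimension `n i`, with the function fields `F i.castSucc` and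
the generic points `x i`, and of the variety `Y` of dimension `r + 1`, with the function field
`F (Fin.last k)`. Suppose that the `X_i` satisfy `CutOut`. Let `W ⊆ V` be a function field, the
extension being finite, such that `V` is generated by `W` and the function fields of the `X_i` (i.e.
`V ⇢ W × X_0 × ... × X_{k-1}` is generically injective), and let `C_i * deg F W i < ∏ j, δ i j` for all
`i < k`, where `C_i = (2 (M i + 1)) ^ (q i) (4 (M i + 1)) ^ ((M i + 1) (M i + 2) / 2)`. Then `W` is
uniruled if and only if `Y` is; if `κ(Y) = -∞` then `κ(W) = -∞`; and if `Y` is uniruled or has a nonzero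
canonical form then the following are equivalent: `p_g(W) = 0`; `κ(W) = -∞`; `K_W` is not
pseudo-effective; `W` is uniruled. -/
theorem result :
    (∀ (M n q m : ℕ) (K : Type) [Field K] [Algebra ℂ K]
      (F : Fin q → MvPolynomial (Fin (M + 2)) ℂ) (δ : Fin q → ℕ) (x : Fin (M + 2) → K),
      SmoothCI F δ x → 1 ≤ n → Algebra.trdeg ℂ K = n → n + q = M + 1 → m + M + 2 = ∑ i, δ i →
      CutOut n m δ x) ∧
    ∀ (k : ℕ) (n m M q : Fin k → ℕ) (r : ℕ) (V : Type) [Field V] [Algebra ℂ V]
    [Algebra.EssFiniteType ℂ V] (F : Fin (k + 1) → IntermediateField ℂ V)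
    (δ : ∀ i : Fin k, Fin (q i) → ℕ) (x : ∀ i : Fin k, Fin (M i + 2) → F i.castSucc)
    (_ : ∀ i : Fin k, CutOut (n i) (m i) (δ i) (x i))
    (_ : Algebra.trdeg ℂ (F (Fin.last k)) = (r + 1 : ℕ)) (_ : ⨆ i, F i = ⊤)
    (_ : Algebra.trdeg ℂ V = ((∑ i, n i) + (r + 1) : ℕ))
    (W : Type) [Field W] [Algebra ℂ W] [Algebra W V] [IsScalarTower ℂ W V] [FiniteDimensional W V]
    (_ : IntermediateField.adjoin W (⋃ i : Fin k, (F i.castSucc : Set V)) = ⊤)
    (_ : ∀ i : Fin k, (2 * (M i + 1)) ^ q i * ((4 * (M i + 1)) ^ ((M i + 1) * (M i + 2) / 2) *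
      deg F W i) < ∏ j, δ i j),
    (IsUniruled ℂ W ((∑ i, n i) + (r + 1)) ↔ IsUniruled ℂ (F (Fin.last k)) (r + 1)) ∧
    (¬ KodGe ℂ (F (Fin.last k)) (r + 1) (fun _ => False) 0 →
      ¬ KodGe ℂ W ((∑ i, n i) + (r + 1)) (fun _ => False) 0) ∧
    ((IsUniruled ℂ (F (Fin.last k)) (r + 1) ∨ ¬ GenusZero (F (Fin.last k)) (r + 1)) →
      [GenusZero W ((∑ i, n i) + (r + 1)),
        ¬ KodGe ℂ W ((∑ i, n i) + (r + 1)) (fun _ => False) 0,
        ¬ Psef ℂ W ((∑ i, n i) + (r + 1)) (fun _ => False),
        IsUniruled ℂ W ((∑ i, n i) + (r + 1))].TFAE) := by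
  refine ⟨fun M n q m K _ _ F δ x h hn hK hq hm => ?_, ?_⟩
  · obtain ⟨ω₀, hω₀⟩ := Pool.Agent.N162.GP.fCIA M n q m K F δ x h hn hK hq hm
    refine ⟨h.one, h.gen, hK, hm.ge, ⟨F, fun i => (h.hom i).totalDegree_le,
      Pool.Agent.U598.PS.comp_of_smoothCI h⟩, ω₀, hω₀.pl, hω₀.ne, fun f => ?_⟩
    have h1 : (∏ k, X (f k) : MvPolynomial (Fin (M + 2)) ℂ).IsHomogeneous m := by
      have h2 := IsHomogeneous.prod Finset.univ (fun k : Fin m =>
        (X (f k) : MvPolynomial (Fin (M + 2)) ℂ)) (fun _ => 1) fun k _ => isHomogeneous_X ℂ (f k)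
      rwa [Finset.sum_const, Finset.card_univ, Fintype.card_fin, smul_eq_mul, mul_one] at h2
    have h2 := hω₀.reg _ h1
    have h3 : aeval x (∏ k, X (f k) : MvPolynomial (Fin (M + 2)) ℂ) = ∏ k, x (f k) := by
      rw [map_prod]
      exact Finset.prod_congr rfl fun k _ => aeval_X _ _
    rwa [h3] at h2
  · intro k n m M q r V _ _ _ F δ x hX hY hF hV W _ _ _ _ _ hinj hdeg
    have hmain := U393.LT.prodvar_log (k := k) (g := fun i => deg F W i + 1) (s := 0)
      (BX := fun _ _ => False) (BW := fun _ => False) (fun i => (hX i).dim) (fun i => ?_) hY hF hV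
      (fun _ => ∅) (fun S => ?_) (fun P Q e h => ?_) hinj (fun i => Nat.lt_succ_self _)
    · obtain ⟨h1, h2, h3⟩ := hmain
      refine ⟨a1_iff.symm.trans (h1.trans a1_iff), fun h => ?_, fun h => ?_⟩
      · exact U393.LT.kodGe_iff.2 (h2 (U393.LT.kodGe_iff.1 h))
      · have h4 := h3 (h.imp a1_iff.2 fun h => ?_)
        · have h5 : R882.LT.LogGenusZero W ((∑ i, n i) + (r + 1)) (fun _ => False) ↔
              GenusZero W ((∑ i, n i) + (r + 1)) := by
            constructor
            · intro h ω hω D
              exact h ω (sec_iff.2 hω) D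
            · intro h ω hω D
              exact h ω (sec_iff.1 hω) D
          rw [h5, ← U393.LT.kodGe_iff, a1_iff] at h4
          exact h4
        · unfold GenusZero at h
          push Not at h
          obtain ⟨ω, hω, D, hD⟩ := h
          exact ⟨ω, sec_iff.2 hω, fun h0 => hD (by rw [h0]; rfl)⟩
    · obtain ⟨ω₀, hpl, hne, hreg⟩ := (hX i).forms
      obtain ⟨G, hG, hcomp⟩ := (hX i).component
      have hess := Pool.Agent.N162.GP.ess_of_gen (hX i).gen
      exact Pool.Agent.U598.PS.sepX (p := M i + 1) (Nat.le_add_left 1 (M i)) (hX i).dim hpl hne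
        (hX i).one (fun f P hP => (hreg f).2 P hP) (hX i).gen (hX i).sum hG hcomp (hdeg i)
    · constructor
      · intro _
        exact ⟨0, fun a ha => absurd ha (Finset.notMem_empty a)⟩
      · intro _ h
        exact h
    · constructor
      · intro h
        exact h.elim
      · rintro ⟨_, _, _, h, _⟩
        exact h

end Pool.Agent.Results.MP_23b606_ag.ProductsOfIntersections
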