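import Pool.Agent.U393.LT.MainB

/-!
# Uniruledness of the varieties dominated by a product with an arbitrary variety

Let `X_0, ..., X_{k-1}` be varieties over `ℂ` of dimensions `n_i`, such that the canonical forms of (a
smooth projective model of) `X_i` separate fewer than `g_i` general points (`SeparatesPoints`): if
`P_1, ..., P_s` are pairwise different points with values in an algebraically closed field, `s < g_i`,
each one mapped to the generic point of `X_i`, then for each `j` there is a canonical form with nonzero
value at `P_j` and the value zero at the other ones. For instance `X_i` is a smooth complete intersection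
with the canonical bundle `O(m_i)`, and `g_i` may be of the order of `m_i ^ 2`, or `X_i` is a curve of
gonality at least `g_i` (`Pool.Agent.N162.GQ.sep_factor`).

Let `Y` be an arbitrary variety of positive dimension, `V = X_0 × ... × X_{k-1} × Y`, and let `V ⇢ W` be a
dominant rational map of finite degree to a variety `W` such that the map from `V` to
`W × X_0 × ... × X_{k-1}` is generically injective. The map `V ⇢ W` need not be compatible with the
product structure, and it need not be a Galois cover. Let `W_i` be the image of `V` in
`W × X_0 × ... × X_{i-1}`, and let `d_i` be the degree of `W_{i+1}` over `W_i`. So `d_0 d_1 ... d_{k-1}`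
is the degree of `V ⇢ W`.

**Theorem.** Suppose that `d_i < g_i` for all `i < k`. Then

* `W` is uniruled if and only if `Y` is uniruled;
* if `κ(Y) = -∞` then `κ(W) = -∞`;
* if `Y` is uniruled or has a nonzero canonical form then
  `p_g(W) = 0 ⟺ κ(W) = -∞ ⟺ K_W is not pseudo-effective ⟺ W is uniruled`.

So Q1 has a positive answer for all smooth projective models and Moishezon manifolds birational to such
a `W`, if `Y` is uniruled or `p_g(Y) > 0`, for instance if `Y` is a product of curves, an abelian
variety, a smooth complete intersection, or a variety of one of these types times a uniruled one. In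
the previous results on Q1 for products the last factor `Y` had to be a curve. (The examples are not
part of the Lean proof.)

Proof. Let `M × ℙ¹ ⇢ W` be dominant of finite degree, with the coordinate `t` on `ℙ¹`, let `R` be the
function field of `M × ℙ¹`, and let `Ω` be a Galois extension of the function field of `W` which contains
`R` and the function field of `V`. Suppose that it is known that the functions on `X_l`, `l < i`, are
constant along the lift of `d/dt` to `Ω`; then they generate with `R` a field `R_i`, and this is the
function field of a variety `M_i × ℙ¹`. Suppose that a function `u` on `X_i` is not constant along the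
lift of `d/dt`. Then `Ω` is algebraic over the field generated by the function field of `X_i` and
functions `b_1, ..., b_s` on `M_i`. For each canonical form `ω` on `X_i` the trace of
`ω ∧ db_1 ∧ ... ∧ db_s` to `R_i` is a rational form of top degree on `M_i × ℙ¹` without poles along the
divisors which are dominant over `M_i`, so it is zero. This is a relation between the values of `ω` at the
conjugates over `R_i` of the generic point of `X_i`; their number is at most `d_i`, and it follows that
the coefficients of the relation are zero, a contradiction. Hence the functions on all `X_i` are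
constant along the lift of `d/dt`, and since `V` is generically embedded in `W × X_0 × ... × X_{k-1}`,
the variety `V` is covered by rational curves in the fibres of `V ⇢ X_0 × ... × X_{k-1}`. So `Y` is
uniruled after the extension of the ground field to the function field of this product. To descend this
to `ℂ` one takes residues with respect to a suitable valuation ring (`Pool/Agent/U393/UT/Cut.lean`).

For the geometric genus one takes the traces of the products of the canonical forms on `X_i` and one
nonzero canonical form on `Y`, and eliminates the coordinates on `X_0, ..., X_{k-1}` one after the other.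
Pull-backs, products and traces of canonical forms and the elimination are due to helper145, helper123,
helper442 and others (`Pool/Agent/N145/SX`, `Pool/Agent/R882/LTr.lean`).
-/

set_option autoImplicit false
set_option linter.overlappingInstances false

open FF Module
open Pool.Agent.N162.BC (GlobalForm)
open Pool.Agent.W602.GT (Psef)
open Pool.Agent.W619.PQ (IsUniruled KodairaNeg)

namespace Pool.Agent.Results.MP_23b606_ag.ProductsTimesVariety

/-- The canonical forms of the variety with the function field `E`, of dimension `n`, separate fewer than
`g` general points: let `x` be coordinates (a transcendence basis), let `A` be a set of fewer than `g`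
embeddings of `E` into an algebraically closed field `Ω` (points with values in `Ω` which are mapped to
the generic point of the variety), and let `c σ` be elements of `Ω` such that the sum of all
`c σ * σ f` is zero for all functions `f` for which `f dx_1 ∧ ... ∧ dx_n` is a canonical form without
poles on the smooth projective models. Then all `c σ` are zero. -/
def SeparatesPoints (E : Type) [Field E] [Algebra ℂ E] (n g : ℕ) : Prop :=
  ∃ x : Fin n → E, IsTranscendenceBasis ℂ x ∧
    ∀ (Ω : Type) [Field Ω] [Algebra ℂ Ω] [IsAlgClosed Ω] (A : Finset (E →ₐ[ℂ] Ω)), A.card < g →
      ∀ c : (E →ₐ[ℂ] Ω) → Ω,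
        (∀ f : E, GlobalForm n (fun D => (Matrix.of fun i j => D i (x j)).det * f) →
          ∑ σ ∈ A, c σ * σ f = 0) → ∀ σ ∈ A, c σ = 0

/-- The function field of the image `W_i` of `V` in `W × X_0 × ... × X_{i-1}`: here `V` and `W` are
the function fields, and `F l.castSucc`, `l < k`, is the function field of `X_l`. -/
noncomputable def Img {V : Type} [Field V] [Algebra ℂ V] {k : ℕ}
    (F : Fin (k + 1) → IntermediateField ℂ V) (W : Type) [Field W] [Algebra W V] (i : ℕ) :
    IntermediateField W V :=
  IntermediateField.adjoin W {z | ∃ l : Fin k, l.val < i ∧ z ∈ F l.castSucc}

/-- The degree `d_i` of `W_{i+1}` over `W_i`. -/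
noncomputable def deg {V : Type} [Field V] [Algebra ℂ V] {k : ℕ}
    (F : Fin (k + 1) → IntermediateField ℂ V) (W : Type) [Field W] [Algebra W V] (i : Fin k) : ℕ :=
  finrank (Img F W i) (IntermediateField.adjoin (Img F W i) (F i.castSucc : Set V))

/-- **Uniruledness of the varieties dominated by a product with an arbitrary variety.** Let `V` be the
function field of the product of the varieties `X_i`, `i < k`, of dimension `n i`, with the function fields
`F i.castSucc`, and of the variety `Y` of dimension `r + 1`, with the function field `F (Fin.last k)`.
Suppose that the canonical forms of `X_i` separate fewer than `g i` general points. Let `W ⊆ V` be the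
function field of a variety `W`, the extension being finite, such that `V` is generated by `W` and the
function fields of the `X_i` (i.e. `V ⇢ W × X_0 × ... × X_{k-1}` is generically injective), and let
`deg F W i < g i` for all `i < k`. Then `W` is uniruled if and only if `Y` is uniruled; if `κ(Y) = -∞`
then `κ(W) = -∞`; and if `Y` is uniruled or has a nonzero canonical form then the following are
equivalent: `p_g(W) = 0`; `κ(W) = -∞`; `K_W` is not pseudo-effective; `W` is uniruled. -/
theorem result (k : ℕ) (n g : Fin k → ℕ) (r : ℕ) (V : Type) [Field V] [Algebra ℂ V]
    [Algebra.EssFiniteType ℂ V] (F : Fin (k + 1) → IntermediateField ℂ V)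
    (hn : ∀ i : Fin k, Algebra.trdeg ℂ (F i.castSucc) = n i)
    (hY : Algebra.trdeg ℂ (F (Fin.last k)) = (r + 1 : ℕ)) (hF : ⨆ i, F i = ⊤)
    (hV : Algebra.trdeg ℂ V = ((∑ i, n i) + (r + 1) : ℕ))
    (hsep : ∀ i : Fin k, SeparatesPoints (F i.castSucc) (n i) (g i))
    (W : Type) [Field W] [Algebra ℂ W] [Algebra W V] [IsScalarTower ℂ W V] [FiniteDimensional W V]
    (hinj : IntermediateField.adjoin W (⋃ i : Fin k, (F i.castSucc : Set V)) = ⊤)
    (hdeg : ∀ i : Fin k, deg F W i < g i) :
    (IsUniruled ℂ W ((∑ i, n i) + (r + 1)) ↔ IsUniruled ℂ (F (Fin.last k)) (r + 1)) ∧
    (KodairaNeg ℂ (F (Fin.last k)) (r + 1) → KodairaNeg ℂ W ((∑ i, n i) + (r + 1))) ∧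
    ((IsUniruled ℂ (F (Fin.last k)) (r + 1) ∨
      ∃ ω : (Fin (r + 1) → Derivation ℂ (F (Fin.last k)) (F (Fin.last k))) → F (Fin.last k),
        GlobalForm (r + 1) ω ∧ ω ≠ 0) →
      [∀ ω : (Fin ((∑ i, n i) + (r + 1)) → Derivation ℂ W W) → W,
          GlobalForm ((∑ i, n i) + (r + 1)) ω → ∀ D, ω D = 0,
        KodairaNeg ℂ W ((∑ i, n i) + (r + 1)),
        ¬ Psef ℂ W ((∑ i, n i) + (r + 1)) (fun _ => False),
        IsUniruled ℂ W ((∑ i, n i) + (r + 1))].TFAE) := by
  refine Pool.Agent.U393.LT.prodvar (g := g) hn (fun i => ?_) hY hF hV hinj hdeg
  obtain ⟨x, hx, h⟩ := hsep i
  refine ⟨x, hx, fun Ω _ _ _ A hA c hc => h Ω A hA c fun f hf => hc f fun P hP => ?_⟩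
  exact ⟨fun D hD => hf.2 P hP D fun j => Pool.Agent.TH466.QG.derReg_of_log (hD j),
    fun _ => hf.2 P hP⟩

end Pool.Agent.Results.MP_23b606_ag.ProductsTimesVariety
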